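import Mathlib
import Pool.Agent.W659.EC.CP2

/-! # C*-algebras with subexponential filtrations are nuclear: statements of the parts -/

set_option autoImplicit false
open scoped Matrix.Norms.L2Operator Matrix ComplexOrder

noncomputable section

namespace Pool.Agent.W663.SX

open Pool.Agent.W659.EC (IsCP IsCPC)

/-- unital positive functional -/
structure St {A : Type} [CStarAlgebra A] (ρ : A →ₗ[ℂ] ℂ) : Prop where
  one : ρ 1 = 1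
  nn : ∀ x, 0 ≤ (ρ (star x * x)).re
  im : ∀ x, (ρ (star x * x)).im = 0

/-- approximate Kiefer-Wolfowitz (D-optimal design) -/
def S_KW : Prop := ∀ (d : ℕ) (G : Set (Matrix (Fin d) (Fin d) ℂ)), Convex ℝ G →
  (∀ X ∈ G, X.PosSemidef) → (∃ C : ℝ, ∀ X ∈ G, ∀ i j, ‖X i j‖ ≤ C) → (∃ X ∈ G, X.PosDef) →
  ∃ X ∈ G, X.PosDef ∧ ∀ Y ∈ G, ((X⁻¹ * Y).trace).re ≤ 6 * (d : ℝ)

/-- basic facts on states -/
def S_ST : Prop := ∀ (A : Type) [CStarAlgebra A] (ρ : A →ₗ[ℂ] ℂ), St ρ →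
  (∀ x, ρ (star x) = star (ρ x)) ∧
  (∀ x y, ‖ρ (star x * y)‖ ^ 2 ≤ (ρ (star x * x)).re * (ρ (star y * y)).re) ∧
  (∀ a x, (ρ (star (a * x) * (a * x))).re ≤ ‖a‖ ^ 2 * (ρ (star x * x)).re) ∧
  (∀ x, ‖ρ x‖ ≤ ‖x‖)

/-- norming states -/
def S_NS : Prop := ∀ (A : Type) [CStarAlgebra A] [Nontrivial A] (x : A),
  ∃ ρ : A →ₗ[ℂ] ℂ, St ρ ∧ (ρ (star x * x)).re = ‖x‖ ^ 2

/-- D-optimal state -/
def S_DO : Prop := ∀ (A : Type) [CStarAlgebra A] [Nontrivial A] (V : Submodule ℂ A)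
  [FiniteDimensional ℂ V], ∃ ρ : A →ₗ[ℂ] ℂ, St ρ ∧
    ∀ x ∈ V, ‖x‖ ^ 2 ≤ 6 * (Module.finrank ℂ V : ℝ) * (ρ (star x * x)).re

/-- adapted orthonormal system of a filtration -/
def S_OB : Prop := ∀ (A : Type) [CStarAlgebra A] (F : ℕ → Submodule ℂ A), Monotone F →
  (∀ n, FiniteDimensional ℂ (F n)) → F 0 = Submodule.span ℂ {(1 : A)} →
  ∀ (N : ℕ) (ρ : A →ₗ[ℂ] ℂ), St ρ → (∀ x ∈ F N, (ρ (star x * x)).re = 0 → x = 0) →
  ∃ (k : ℕ) (e : Fin k → A) (lev : Fin k → ℕ),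
    (∀ i, lev i ≤ N) ∧ (∀ i, e i ∈ F (lev i)) ∧
    (∀ i j, ρ (star (e i) * e j) = if i = j then 1 else 0) ∧
    (∀ x ∈ F N, x = ∑ i, ρ (star (e i) * x) • e i) ∧
    (∀ n ≤ N, ∀ x ∈ F n, ∀ i, n < lev i → ρ (star (e i) * x) = 0) ∧
    k ≤ Module.finrank ℂ (F N) ∧
    (∃ i, e i * star (e i) = 1 ∧ lev i = 0)

/-- the compression of left multiplication -/
def comp {A : Type} [CStarAlgebra A] {k : ℕ} (ρ : A →ₗ[ℂ] ℂ) (e : Fin k → A) :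
    A →ₗ[ℂ] Matrix (Fin k) (Fin k) ℂ where
  toFun a := Matrix.of fun j i => ρ (star (e j) * a * e i)
  map_add' a b := by ext j i; simp [mul_add, add_mul]
  map_smul' c a := by ext j i; simp

/-- the map back into the algebra -/
def lift {A : Type} [CStarAlgebra A] {k : ℕ} (g : Fin k → A) :
    Matrix (Fin k) (Fin k) ℂ →ₗ[ℂ] A where
  toFun c := ∑ j, ∑ i, c j i • (g j * star (g i))
  map_add' a b := by simp [add_smul, Finset.sum_add_distrib]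
  map_smul' c a := by simp [Finset.smul_sum, smul_smul]

def S_PH : Prop := ∀ (A : Type) [CStarAlgebra A] (k : ℕ) (ρ : A →ₗ[ℂ] ℂ) (e : Fin k → A),
  St ρ → IsCP (comp ρ e)

def S_PS : Prop := ∀ (A : Type) [CStarAlgebra A] (k : ℕ) (g : Fin k → A), IsCP (lift g)

/-- Cauchy-Schwarz in a C*-algebra -/
def S_CS : Prop := ∀ (A : Type) [CStarAlgebra A] (n : ℕ) (X Y : Fin n → A),
  ‖∑ i, X i * Y i‖ ^ 2 ≤ ‖∑ i, X i * star (X i)‖ * ‖∑ i, star (Y i) * Y i‖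

/-- resolvent -/
def Rm {A : Type} [CStarAlgebra A] (D : A) (s : ℝ) : A := cfc (fun t : ℝ => (t + s)⁻¹) D
/-- square root -/
def hs {A : Type} [CStarAlgebra A] (D : A) : A := cfc (fun t : ℝ => √t) D
/-- inverse square root -/
def hi {A : Type} [CStarAlgebra A] (D : A) : A := cfc (fun t : ℝ => (√t)⁻¹) D

def S_CF : Prop := ∀ (A : Type) [CStarAlgebra A] (D : A) (K : ℝ), IsSelfAdjoint D →
  (∀ t ∈ spectrum ℝ D, 1 ≤ t ∧ t ≤ K) →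
  hs D * hs D = D ∧ hi D * hs D = 1 ∧ hs D * hi D = 1 ∧ ‖hi D‖ ≤ 1 ∧
  IsSelfAdjoint (hs D) ∧ IsSelfAdjoint (hi D) ∧ (∀ s, 0 < s → IsSelfAdjoint (Rm D s)) ∧
  ∀ (δ : ℝ) (J : ℕ), 0 < δ →
    ‖(δ : ℂ) • ∑ m ∈ Finset.range J, Rm D (((m : ℝ) + 1) * δ) * D * Rm D (((m : ℝ) + 1) * δ)‖ ≤ 1

/-- the averaging estimate -/
def S_CO : Prop := ∀ (A : Type) [CStarAlgebra A] (D a κ : A) (K : ℝ), IsSelfAdjoint D →
  (∀ t ∈ spectrum ℝ D, 1 ≤ t ∧ t ≤ K) → 1 ≤ K → IsSelfAdjoint a →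
  IsSelfAdjoint (a * D + hs D * κ * hs D) → ∀ (δ : ℝ) (J : ℕ), 0 < δ → 0 < J →
  ‖(δ : ℂ) • ∑ m ∈ Finset.range J, Rm D (((m : ℝ) + 1) * δ) *
      (a * D + hs D * κ * hs D) * Rm D (((m : ℝ) + 1) * δ) - a‖ ≤
    3 * ‖κ‖ + ‖a‖ * (δ + K / (J * δ))

/-- off-diagonal parts of a matrix do not have larger norm -/
def S_BN : Prop := ∀ (k : ℕ) (lev : Fin k → ℕ) (M : Matrix (Fin k) (Fin k) ℂ),
  ‖(Matrix.of fun j i => if lev j = lev i + 1 then M j i else 0 : Matrix (Fin k) (Fin k) ℂ)‖ ≤ ‖M‖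

end Pool.Agent.W663.SX
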