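import Mathlib
import Pool.Agent.W663.SX.Stm

set_option autoImplicit false
open scoped Matrix.Norms.L2Operator Matrix ComplexOrder

noncomputable section

namespace Pool.Agent.W663.SX

open Pool.Agent.W659.EC (IsCP IsCPC)

/-- conjugation is completely positive -/
def conjBy {A : Type} [CStarAlgebra A] (R : A) : A →ₗ[ℂ] A where
  toFun y := R * y * star R
  map_add' a b := by simp [mul_add, add_mul]
  map_smul' c a := by simp

theorem isCP_conjBy {A : Type} [CStarAlgebra A] (R : A) : IsCP (conjBy R) := by
  intro k M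
  refine ⟨M.map (fun x => x * star R), ?_⟩
  ext p q
  simp only [Matrix.map_apply, Matrix.mul_apply, Matrix.conjTranspose_apply, conjBy,
    LinearMap.coe_mk, AddHom.coe_mk, Finset.mul_sum, Finset.sum_mul]
  refine Finset.sum_congr rfl fun r _ => ?_
  simp [mul_assoc]

section fixed

variable {A : Type} [CStarAlgebra A]

theorem lift_one {k : ℕ} (g : Fin k → A) : lift g 1 = ∑ i, g i * star (g i) := by
  simp only [lift, LinearMap.coe_mk, AddHom.coe_mk]
  refine Finset.sum_congr rfl fun j _ => ?_
  rw [Finset.sum_eq_single j]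
  · simp
  · intro i _ hij
    simp [Matrix.one_apply_ne (Ne.symm hij)]
  · simp

theorem comp_one {k : ℕ} (ρ : A →ₗ[ℂ] ℂ) (e : Fin k → A)
    (h : ∀ i j, ρ (star (e i) * e j) = if i = j then 1 else 0) : comp ρ e 1 = 1 := by
  ext j i
  simp [comp, h, Matrix.one_apply]

end fixed

end Pool.Agent.W663.SX
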