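import Mathlib
import Pool.Agent.W663.SX.Main

set_option autoImplicit false
open scoped Matrix.Norms.L2Operator Matrix ComplexOrder

noncomputable section

namespace Pool.Agent.W663.SX

open Pool.Agent.W659.EC (IsCP IsCPC)

/-- the error matrix -/
def cpr {k : ℕ} (lev : Fin k → ℕ) (t : ℝ) (M : Matrix (Fin k) (Fin k) ℂ) :
    Matrix (Fin k) (Fin k) ℂ :=
  Matrix.of fun j i => (1 - ((Real.exp (t * ((lev j : ℝ) - lev i)) : ℝ) : ℂ)) * M j i

/-- the upper band -/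
def bnd {k : ℕ} (lev : Fin k → ℕ) (M : Matrix (Fin k) (Fin k) ℂ) : Matrix (Fin k) (Fin k) ℂ :=
  Matrix.of fun j i => if lev j = lev i + 1 then M j i else 0

theorem cpr_norm (hb : S_BN) {k : ℕ} (lev : Fin k → ℕ) (M : Matrix (Fin k) (Fin k) ℂ)
    (hM : ∀ j i, lev i + 1 < lev j ∨ lev j + 1 < lev i → M j i = 0) (t : ℝ) (ht : 0 ≤ t) :
    ‖cpr lev t M‖ ≤ 2 * (Real.exp t - 1) * ‖M‖ := by
  have key : cpr lev t M = ((1 - Real.exp t : ℝ) : ℂ) • bnd lev M +
      ((1 - Real.exp (-t) : ℝ) : ℂ) • (bnd lev Mᴴ)ᴴ := by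
    ext j i
    simp only [cpr, bnd, Matrix.of_apply, Matrix.add_apply, Matrix.smul_apply, smul_eq_mul,
      Matrix.conjTranspose_apply]
    by_cases h1 : lev j = lev i + 1
    · have h2 : ¬ (lev i = lev j + 1) := by omega
      rw [if_pos h1, if_neg h2, h1]
      push_cast
      simp
    · by_cases h2 : lev i = lev j + 1
      · rw [if_neg h1, if_pos h2, h2]
        push_cast
        simp
      · rw [if_neg h1, if_neg h2]
        by_cases h3 : lev j = lev i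
        · rw [h3]; simp
        · rw [hM j i (by omega)]; simp
  have e1 : 1 ≤ Real.exp t := Real.one_le_exp ht
  have e2 : Real.exp (-t) ≤ 1 := by simpa using ht
  have e3 : 1 - Real.exp (-t) ≤ Real.exp t - 1 := by
    rw [Real.exp_neg]
    have h0 := Real.exp_pos t
    have : 2 ≤ Real.exp t + (Real.exp t)⁻¹ := by
      have h4 : (Real.exp t) * (Real.exp t)⁻¹ = 1 := mul_inv_cancel₀ h0.ne'
      nlinarith [sq_nonneg (Real.exp t - 1), inv_pos.2 h0, sq_nonneg (Real.exp t - (Real.exp t)⁻¹)]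
    linarith
  have n1 : ‖bnd lev M‖ ≤ ‖M‖ := hb k lev M
  have n2 : ‖(bnd lev Mᴴ)ᴴ‖ ≤ ‖M‖ := by
    rw [Matrix.l2_opNorm_conjTranspose]
    calc ‖bnd lev Mᴴ‖ ≤ ‖Mᴴ‖ := hb k lev Mᴴ
      _ = ‖M‖ := Matrix.l2_opNorm_conjTranspose M
  rw [key]
  calc _ ≤ ‖((1 - Real.exp t : ℝ) : ℂ) • bnd lev M‖ +
      ‖((1 - Real.exp (-t) : ℝ) : ℂ) • (bnd lev Mᴴ)ᴴ‖ := norm_add_le _ _
    _ ≤ (Real.exp t - 1) * ‖M‖ + (Real.exp t - 1) * ‖M‖ := by
      rw [norm_smul, norm_smul, Complex.norm_real, Complex.norm_real, Real.norm_eq_abs,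
        Real.norm_eq_abs, abs_of_nonpos (by linarith), abs_of_nonneg (by linarith)]
      gcongr
      linarith
    _ = _ := by ring

section sys

variable {A : Type} [CStarAlgebra A]

structure Sys (F : ℕ → Submodule ℂ A) (N : ℕ) (ρ : A →ₗ[ℂ] ℂ) {k : ℕ} (e : Fin k → A)
    (lev : Fin k → ℕ) : Prop where
  le : ∀ i, lev i ≤ N
  mem : ∀ i, e i ∈ F (lev i)
  orth : ∀ i j, ρ (star (e i) * e j) = if i = j then 1 else 0
  exp : ∀ x ∈ F N, x = ∑ i, ρ (star (e i) * x) • e i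
  van : ∀ n ≤ N, ∀ x ∈ F n, ∀ i, n < lev i → ρ (star (e i) * x) = 0
  card : k ≤ Module.finrank ℂ (F N)
  one : ∃ i, e i * star (e i) = 1 ∧ lev i = 0

variable {F : ℕ → Submodule ℂ A} {N : ℕ} {ρ : A →ₗ[ℂ] ℂ} {k : ℕ} {e : Fin k → A}
  {lev : Fin k → ℕ}

theorem Sys.band (s : Sys F N ρ e lev) (hst : S_ST) (hρ : St ρ)
    (hmul : ∀ m n : ℕ, ∀ x ∈ F m, ∀ y ∈ F n, x * y ∈ F (m + n))
    (a : A) (ha : a ∈ F 1) (hsa : IsSelfAdjoint a) (j i : Fin k)
    (h : lev i + 1 < lev j ∨ lev j + 1 < lev i) : comp ρ e a j i = 0 := by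
  have key : ∀ p q : Fin k, lev q + 1 < lev p → ρ (star (e p) * (a * e q)) = 0 := by
    intro p q hpq
    have h1 : a * e q ∈ F (1 + lev q) := hmul _ _ _ ha _ (s.mem q)
    exact s.van (1 + lev q) (by have := s.le p; omega) _ h1 p (by omega)
  simp only [comp, LinearMap.coe_mk, AddHom.coe_mk, Matrix.of_apply]
  rcases h with h | h
  · rw [mul_assoc]; exact key j i h
  · have h1 := key i j h
    have h2 : star (star (e i) * (a * e j)) = star (e j) * a * e i := by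
      simp [hsa.star_eq, mul_assoc]
    rw [← h2, (hst A ρ hρ).1, h1, star_zero]

/-- remainder vector -/
def rem (ρ : A →ₗ[ℂ] ℂ) (e : Fin k → A) (x : A) : A := x - ∑ j, ρ (star (e j) * x) • e j

theorem Sys.rem_bound (s : Sys F N ρ e lev) (hst : S_ST) (hρ : St ρ) (x : A) :
    (ρ (star (rem ρ e x) * rem ρ e x)).re ≤ (ρ (star x * x)).re := by
  obtain ⟨h1, -, -, -⟩ := hst A ρ hρ
  have hc : ∀ j, ρ (star x * e j) = star (ρ (star (e j) * x)) := by
    intro j
    rw [← h1]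
    simp
  have : ρ (star (rem ρ e x) * rem ρ e x) =
      ρ (star x * x) - ∑ j, star (ρ (star (e j) * x)) * ρ (star (e j) * x) := by
    unfold rem
    simp only [star_sub, star_sum, star_smul, sub_mul, mul_sub, map_sub, Finset.sum_mul,
      Finset.mul_sum, map_sum, smul_mul_assoc, mul_smul_comm, map_smul, smul_eq_mul, s.orth, hc]
    simp
  rw [this, Complex.sub_re]
  have h2 : 0 ≤ (∑ j, star (ρ (star (e j) * x)) * ρ (star (e j) * x)).re := by
    rw [Complex.re_sum]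
    refine Finset.sum_nonneg fun j _ => ?_
    rw [Complex.star_def, ← Complex.normSq_eq_conj_mul_self]
    simp [Complex.normSq_nonneg]
  linarith

end sys

end Pool.Agent.W663.SX
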