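import Mathlib
import Pool.Agent.W663.SX.Band

set_option autoImplicit false
open scoped Matrix.Norms.L2Operator Matrix ComplexOrder

noncomputable section

namespace Pool.Agent.W663.SX

open Pool.Agent.W659.EC (IsCP IsCPC)

section sys

variable {A : Type} [CStarAlgebra A]

/-- weighted vectors -/
def gv {k : ℕ} (t : ℝ) (lev : Fin k → ℕ) (e : Fin k → A) : Fin k → A :=
  fun i => ((Real.exp (-t * lev i) : ℝ) : ℂ) • e i

/-- total remainder -/
def Rem {k : ℕ} (t : ℝ) (lev : Fin k → ℕ) (ρ : A →ₗ[ℂ] ℂ) (e : Fin k → A) (a : A) : A :=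
  ∑ i, ((Real.exp (-t * lev i) ^ 2 : ℝ) : ℂ) • (rem ρ e (a * e i) * star (e i))

theorem ident {k : ℕ} (t : ℝ) (lev : Fin k → ℕ) (ρ : A →ₗ[ℂ] ℂ) (e : Fin k → A) (a : A) :
    lift (gv t lev e) (comp ρ e a) = a * lift (gv t lev e) 1 +
      (lift (gv t lev e) (cpr lev t (comp ρ e a)) - Rem t lev ρ e a) := by
  have h1 : ∀ i, a * e i = rem ρ e (a * e i) + ∑ j, ρ (star (e j) * a * e i) • e j := by
    intro i
    unfold rem
    simp [mul_assoc]
  have h2 : a * lift (gv t lev e) 1 =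
      ∑ i, ((Real.exp (-t * lev i) ^ 2 : ℝ) : ℂ) • (rem ρ e (a * e i) * star (e i)) +
      ∑ j, ∑ i, (((Real.exp (-t * lev i) ^ 2 : ℝ) : ℂ) * ρ (star (e j) * a * e i)) •
        (e j * star (e i)) := by
    rw [lift_one, Finset.mul_sum, Finset.sum_comm, ← Finset.sum_add_distrib]
    refine Finset.sum_congr rfl fun i _ => ?_
    have : a * (gv t lev e i * star (gv t lev e i)) =
        ((Real.exp (-t * lev i) ^ 2 : ℝ) : ℂ) • (a * e i * star (e i)) := by
      simp only [gv, star_smul, smul_mul_assoc, mul_smul_comm, smul_smul, mul_assoc]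
      congr 1
      rw [Complex.star_def, Complex.conj_ofReal]
      push_cast
      ring
    rw [this]
    conv_lhs => rw [h1 i]
    rw [add_mul, smul_add, Finset.sum_mul, Finset.smul_sum]
    congr 1
    refine Finset.sum_congr rfl fun j _ => ?_
    rw [smul_mul_assoc, smul_smul]
  have h3 : lift (gv t lev e) (comp ρ e a) - lift (gv t lev e) (cpr lev t (comp ρ e a)) =
      ∑ j, ∑ i, (((Real.exp (-t * lev i) ^ 2 : ℝ) : ℂ) * ρ (star (e j) * a * e i)) •
        (e j * star (e i)) := by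
    rw [← map_sub]
    simp only [lift, LinearMap.coe_mk, AddHom.coe_mk]
    refine Finset.sum_congr rfl fun j _ => Finset.sum_congr rfl fun i _ => ?_
    simp only [Matrix.sub_apply, cpr, Matrix.of_apply, gv, star_smul, smul_mul_assoc,
      mul_smul_comm, smul_smul, comp, LinearMap.coe_mk, AddHom.coe_mk]
    congr 1
    rw [Complex.star_def, Complex.conj_ofReal]
    have h4 : ((Real.exp (-t * lev i) ^ 2 : ℝ) : ℂ) =
        ((Real.exp (t * ((lev j : ℝ) - lev i)) : ℝ) : ℂ) * (((Real.exp (-t * lev i) : ℝ) : ℂ) *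
          ((Real.exp (-t * lev j) : ℝ) : ℂ)) := by
      rw [← Complex.ofReal_mul, ← Complex.ofReal_mul, ← Real.exp_add, ← Real.exp_add, sq,
        ← Real.exp_add]
      congr 2
      ring
    rw [h4]
    ring
  rw [h2, ← h3, Rem]
  abel

variable {F : ℕ → Submodule ℂ A} {N : ℕ} {ρ : A →ₗ[ℂ] ℂ} {k : ℕ} {e : Fin k → A}
  {lev : Fin k → ℕ}

theorem Sys.rem_norm (s : Sys F N ρ e lev) (hst : S_ST) (hρ : St ρ) (hmono : Monotone F)
    (hmul : ∀ m n : ℕ, ∀ x ∈ F m, ∀ y ∈ F n, x * y ∈ F (m + n)) (C t : ℝ) (hC : 0 ≤ C)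
    (ht : 0 ≤ t)
    (hn : ∀ x ∈ F (N + 1), ‖x‖ ^ 2 ≤ C * (ρ (star x * x)).re) (a : A) (ha : a ∈ F 1) :
    ‖Rem t lev ρ e a‖ ≤ k * (Real.exp (-t * N) ^ 2 * (C * ‖a‖)) := by
  obtain ⟨-, -, h3, -⟩ := hst A ρ hρ
  have hterm : ∀ i, ‖((Real.exp (-t * lev i) ^ 2 : ℝ) : ℂ) • (rem ρ e (a * e i) * star (e i))‖ ≤
      Real.exp (-t * N) ^ 2 * (C * ‖a‖) := by
    intro i
    have hmem : a * e i ∈ F (lev i + 1) := by
      rw [add_comm]; exact hmul _ _ _ ha _ (s.mem i)
    have hre : (ρ (star (e i) * e i)).re = 1 := by rw [s.orth]; simp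
    by_cases hi : lev i = N
    · rw [norm_smul, Complex.norm_real, Real.norm_eq_abs, abs_of_nonneg (by positivity), hi]
      refine mul_le_mul_of_nonneg_left ?_ (by positivity)
      refine (norm_mul_le _ _).trans ?_
      have m1 : rem ρ e (a * e i) ∈ F (N + 1) := by
        refine (F (N + 1)).sub_mem (by rw [← hi]; exact hmem) ?_
        refine (F (N + 1)).sum_mem fun j _ => (F (N + 1)).smul_mem _ ?_
        exact hmono ((s.le j).trans (Nat.le_succ N)) (s.mem j)
      have b1 : ‖rem ρ e (a * e i)‖ ^ 2 ≤ C * ‖a‖ ^ 2 := by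
        refine (hn _ m1).trans (mul_le_mul_of_nonneg_left ?_ hC)
        refine (s.rem_bound hst hρ _).trans ((h3 _ _).trans ?_)
        rw [hre, mul_one]
      have b2 : ‖star (e i)‖ ^ 2 ≤ C := by
        rw [norm_star]
        refine (hn _ (hmono ((s.le i).trans (Nat.le_succ N)) (s.mem i))).trans ?_
        rw [hre, mul_one]
      have b3 : (‖rem ρ e (a * e i)‖ * ‖star (e i)‖) ^ 2 ≤ (C * ‖a‖) ^ 2 := by
        rw [mul_pow]
        calc _ ≤ (C * ‖a‖ ^ 2) * C := mul_le_mul b1 b2 (by positivity) (by positivity)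
          _ = _ := by ring
      exact (sq_le_sq₀ (by positivity) (by positivity)).1 b3
    · have hlt : lev i + 1 ≤ N := by have := s.le i; omega
      have hz : rem ρ e (a * e i) = 0 := by
        unfold rem
        rw [sub_eq_zero]
        exact s.exp _ (hmono hlt hmem)
      rw [hz]
      simp only [zero_mul, smul_zero, norm_zero]
      positivity
  calc ‖Rem t lev ρ e a‖ ≤ ∑ i, ‖((Real.exp (-t * lev i) ^ 2 : ℝ) : ℂ) •
        (rem ρ e (a * e i) * star (e i))‖ := norm_sum_le _ _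
    _ ≤ ∑ _i : Fin k, Real.exp (-t * N) ^ 2 * (C * ‖a‖) := Finset.sum_le_sum fun i _ => hterm i
    _ = _ := by simp

/-- `D ≥ 1` -/
theorem Sys.spec (s : Sys F N ρ e lev) (t : ℝ) :
    IsSelfAdjoint (lift (gv t lev e) 1) ∧
    ∀ x ∈ spectrum ℝ (lift (gv t lev e) 1), 1 ≤ x ∧ x ≤ max 1 ‖lift (gv t lev e) 1‖ := by
  let _ := CStarAlgebra.spectralOrder A
  let _ := CStarAlgebra.spectralOrderedRing A
  obtain ⟨i0, h1, h2⟩ := s.one
  have hge : (1 : A) ≤ lift (gv t lev e) 1 := by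
    rw [lift_one]
    have : gv t lev e i0 * star (gv t lev e i0) = 1 := by
      simp [gv, h2, h1]
    rw [← this]
    exact Finset.single_le_sum (f := fun i => gv t lev e i * star (gv t lev e i))
      (fun i _ => mul_star_self_nonneg _) (Finset.mem_univ i0)
  have hsa : IsSelfAdjoint (lift (gv t lev e) 1) := by
    rw [lift_one]
    exact isSelfAdjoint_sum _ fun i _ => IsSelfAdjoint.mul_star_self _
  refine ⟨hsa, fun x hx => ⟨?_, ?_⟩⟩
  · have h3 : algebraMap ℝ A 1 ≤ lift (gv t lev e) 1 := by simpa using hge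
    exact (algebraMap_le_iff_le_spectrum hsa).1 h3 x hx
  · refine le_max_of_le_right ?_
    haveI : Nontrivial A := by
      by_contra hn
      rw [not_nontrivial_iff_subsingleton] at hn
      exact absurd hx (by simp [spectrum.of_subsingleton])
    have := spectrum.norm_le_norm_of_mem hx
    exact (le_abs_self x).trans this

end sys

end Pool.Agent.W663.SX
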