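import Mathlib
import Pool.Agent.W663.SX.Ident

set_option autoImplicit false
open scoped Matrix.Norms.L2Operator Matrix ComplexOrder

noncomputable section

namespace Pool.Agent.W663.SX

open Pool.Agent.W659.EC (IsCP IsCPC)

section sys

variable {A : Type} [CStarAlgebra A]

/-- the map back -/
def psi {k : ℕ} (g : Fin k → A) (δ : ℝ) (J : ℕ) : Matrix (Fin k) (Fin k) ℂ →ₗ[ℂ] A :=
  (δ : ℂ) • ∑ m ∈ Finset.range J, (conjBy (Rm (lift g 1) (((m : ℝ) + 1) * δ))).comp (lift g)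

variable {F : ℕ → Submodule ℂ A} {N : ℕ} {ρ : A →ₗ[ℂ] ℂ} {k : ℕ} {e : Fin k → A}
  {lev : Fin k → ℕ}

theorem psi_apply (hcf : S_CF) (s : Sys F N ρ e lev) (t δ : ℝ) (hδ : 0 < δ) (J : ℕ)
    (c : Matrix (Fin k) (Fin k) ℂ) :
    psi (gv t lev e) δ J c = (δ : ℂ) • ∑ m ∈ Finset.range J,
      Rm (lift (gv t lev e) 1) (((m : ℝ) + 1) * δ) * lift (gv t lev e) c *
        Rm (lift (gv t lev e) 1) (((m : ℝ) + 1) * δ) := by
  obtain ⟨h1, h2⟩ := s.spec t
  obtain ⟨-, -, -, -, -, -, h3, -⟩ := hcf A _ _ h1 h2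
  simp only [psi, LinearMap.smul_apply, LinearMap.sum_apply, LinearMap.comp_apply]
  congr 1
  refine Finset.sum_congr rfl fun m _ => ?_
  have := h3 (((m : ℝ) + 1) * δ) (by positivity)
  simp only [conjBy, LinearMap.coe_mk, AddHom.coe_mk, this.star_eq]

theorem psi_cpc (hcf : S_CF) (hps : S_PS) (s : Sys F N ρ e lev) (t δ : ℝ) (hδ : 0 < δ) (J : ℕ) :
    IsCPC (psi (gv t lev e) δ J) := by
  refine Pool.Agent.W659.EC.IsCP.isCPC ?_ ?_
  · exact Pool.Agent.W659.EC.IsCP.smul (Pool.Agent.W659.EC.IsCP.sum _ fun m _ =>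
      Pool.Agent.W659.EC.IsCP.comp (isCP_conjBy _) (hps A k _)) hδ.le
  · rw [psi_apply hcf s t δ hδ]
    obtain ⟨h1, h2⟩ := s.spec t
    obtain ⟨-, -, -, -, -, -, -, h3⟩ := hcf A _ _ h1 h2
    exact h3 δ J hδ

theorem est [Nontrivial A] (hst : S_ST) (hph : S_PH) (hps : S_PS) (hcf : S_CF) (hco : S_CO)
    (hbn : S_BN) (s : Sys F N ρ e lev) (hρ : St ρ) (hmono : Monotone F)
    (hmul : ∀ m n : ℕ, ∀ x ∈ F m, ∀ y ∈ F n, x * y ∈ F (m + n)) (C t : ℝ) (hC : 0 ≤ C)
    (ht : 0 ≤ t)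
    (hn : ∀ x ∈ F (N + 1), ‖x‖ ^ 2 ≤ C * (ρ (star x * x)).re) (a : A) (ha : a ∈ F 1)
    (hsa : IsSelfAdjoint a) (δ : ℝ) (J : ℕ) (hδ : 0 < δ) (hJ : 0 < J) :
    ‖psi (gv t lev e) δ J (comp ρ e a) - a‖ ≤
      3 * (2 * (Real.exp t - 1) * ‖a‖ + k * (Real.exp (-t * N) ^ 2 * (C * ‖a‖))) +
      ‖a‖ * (δ + max 1 ‖lift (gv t lev e) 1‖ / (J * δ)) := by
  obtain ⟨h1, h2⟩ := s.spec t
  obtain ⟨d1, d2, d3, d4, d5, d6, d7, d8⟩ := hcf A _ _ h1 h2
  set g := gv t lev e with hg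
  set D := lift g 1 with hD
  set M := comp ρ e a with hM
  set X := lift g (cpr lev t M) - Rem t lev ρ e a with hX
  set κ := hi D * X * hi D with hκ
  have hcpc : IsCPC (comp ρ e) := by
    refine Pool.Agent.W659.EC.IsCP.isCPC (hph A k ρ e hρ) ?_
    rw [comp_one ρ e s.orth]
    obtain ⟨i0, -, -⟩ := s.one
    haveI : Nonempty (Fin k) := ⟨i0⟩
    exact (CStarRing.norm_one).le
  have hid : lift g M = a * D + X := ident t lev ρ e a
  have hXX : hs D * κ * hs D = X := by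
    calc hs D * κ * hs D = (hs D * hi D) * X * (hi D * hs D) := by rw [hκ]; noncomm_ring
      _ = X := by rw [d2, d3]; simp
  have hP : IsSelfAdjoint (a * D + hs D * κ * hs D) := by
    rw [hXX, ← hid]
    have hcp : IsCP ((lift g).comp (comp ρ e)) :=
      Pool.Agent.W659.EC.IsCP.comp (hps A k g) (hph A k ρ e hρ)
    have := Pool.Agent.W659.EC.IsCP.star_map hcp a
    rw [hsa.star_eq] at this
    exact this.symm
  have hκn : ‖κ‖ ≤ 2 * (Real.exp t - 1) * ‖a‖ + k * (Real.exp (-t * N) ^ 2 * (C * ‖a‖)) := by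
    have e1 : κ = hi D * lift g (cpr lev t M) * hi D - hi D * Rem t lev ρ e a * hi D := by
      rw [hκ, hX]; noncomm_ring
    have e2 : ‖hi D * lift g (cpr lev t M) * hi D‖ ≤ ‖cpr lev t M‖ := by
      have hc : IsCPC ((conjBy (hi D)).comp (lift g)) := by
        refine Pool.Agent.W659.EC.IsCP.isCPC
          (Pool.Agent.W659.EC.IsCP.comp (isCP_conjBy _) (hps A k g)) ?_
        have : ((conjBy (hi D)).comp (lift g)) 1 = 1 := by
          simp only [LinearMap.comp_apply, conjBy, LinearMap.coe_mk, AddHom.coe_mk, d6.star_eq]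
          rw [← hD]
          calc hi D * D * hi D = hi D * (hs D * hs D) * hi D := by rw [d1]
            _ = (hi D * hs D) * (hs D * hi D) := by noncomm_ring
            _ = 1 := by rw [d2, d3, one_mul]
        rw [this]
        exact (CStarRing.norm_one).le
      have := hc.2 (cpr lev t M)
      simpa only [LinearMap.comp_apply, conjBy, LinearMap.coe_mk, AddHom.coe_mk, d6.star_eq]
        using this
    have e3 : ‖cpr lev t M‖ ≤ 2 * (Real.exp t - 1) * ‖a‖ := by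
      refine (cpr_norm hbn lev M (fun j i h => s.band hst hρ hmul a ha hsa j i h) t ht).trans ?_
      refine mul_le_mul_of_nonneg_left (hcpc.2 a) ?_
      have := Real.one_le_exp ht
      linarith
    have e4 : ‖hi D * Rem t lev ρ e a * hi D‖ ≤ ‖Rem t lev ρ e a‖ := by
      calc ‖hi D * Rem t lev ρ e a * hi D‖ ≤ ‖hi D‖ * ‖Rem t lev ρ e a‖ * ‖hi D‖ :=
            (norm_mul_le _ _).trans (mul_le_mul_of_nonneg_right (norm_mul_le _ _) (norm_nonneg _))
        _ ≤ 1 * ‖Rem t lev ρ e a‖ * 1 := by gcongr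
        _ = _ := by ring
    have e5 := s.rem_norm hst hρ hmono hmul C t hC ht hn a ha
    rw [e1]
    refine (norm_sub_le _ _).trans ?_
    linarith
  have hfin := hco A D a κ _ h1 h2 (le_max_left _ _) hsa hP δ J hδ hJ
  rw [psi_apply hcf s t δ hδ]
  rw [hXX, ← hid] at hfin
  refine hfin.trans ?_
  gcongr

end sys

/-- one step of the filtration -/
theorem main_one (hst : S_ST) (hdo : S_DO) (hob : S_OB) (hph : S_PH) (hps : S_PS) (hcf : S_CF)
    (hco : S_CO) (hbn : S_BN) (A : Type) [CStarAlgebra A] [Nontrivial A]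
    (F : ℕ → Submodule ℂ A) (hmono : Monotone F) (h0 : F 0 = Submodule.span ℂ {(1 : A)})
    (hmul : ∀ m n : ℕ, ∀ x ∈ F m, ∀ y ∈ F n, x * y ∈ F (m + n))
    (hfin : ∀ n, FiniteDimensional ℂ (F n))
    (hgr : ∀ δ : ℝ, 0 < δ → ∃ N₀ : ℕ, ∀ n : ℕ, N₀ ≤ n →
      (Module.finrank ℂ (F n) : ℝ) ≤ Real.exp (δ * n))
    (ε : ℝ) (hε : 0 < ε) :
    ∃ (k : ℕ) (φ : A →ₗ[ℂ] Matrix (Fin k) (Fin k) ℂ) (ψ : Matrix (Fin k) (Fin k) ℂ →ₗ[ℂ] A),
      IsCPC φ ∧ IsCPC ψ ∧ ∀ a ∈ F 1, IsSelfAdjoint a → ‖ψ (φ a) - a‖ ≤ ε * ‖a‖ := by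
  set η : ℝ := ε / 20 with hη
  have hηp : 0 < η := by positivity
  set t : ℝ := Real.log (1 + η) with ht
  have htp : 0 < t := Real.log_pos (by linarith)
  have het : Real.exp t = 1 + η := Real.exp_log (by linarith)
  -- choice of N
  obtain ⟨N₀, hN₀⟩ := hgr (t / 2) (by positivity)
  have hlim : ∃ N₁ : ℕ, ∀ N : ℕ, N₁ ≤ N → 6 * Real.exp t * Real.exp (-t * N) ≤ η := by
    have h1 : Filter.Tendsto (fun N : ℕ => 6 * Real.exp t * Real.exp (-t * N)) Filter.atTop
        (nhds (6 * Real.exp t * 0)) := by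
      refine Filter.Tendsto.const_mul _ ?_
      have h2 : Filter.Tendsto (fun N : ℕ => -t * (N : ℝ)) Filter.atTop Filter.atBot := by
        have := (tendsto_natCast_atTop_atTop (R := ℝ)).const_mul_atTop htp
        have h3 := Filter.tendsto_neg_atTop_atBot.comp this
        refine h3.congr fun n => ?_
        simp
      exact Real.tendsto_exp_atBot.comp h2
    rw [mul_zero] at h1
    have h4 := h1.eventually (gt_mem_nhds hηp)
    obtain ⟨N₁, hN₁⟩ := Filter.eventually_atTop.1 h4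
    exact ⟨N₁, fun N hN => (hN₁ N hN).le⟩
  obtain ⟨N₁, hN₁⟩ := hlim
  set N := max N₀ N₁ with hN
  haveI := hfin (N + 1)
  obtain ⟨ρ, hρ, hDO⟩ := hdo A (F (N + 1))
  set d : ℝ := (Module.finrank ℂ (F (N + 1)) : ℝ) with hd
  have hfaith : ∀ x ∈ F N, (ρ (star x * x)).re = 0 → x = 0 := by
    intro x hx h
    have := hDO x (hmono (Nat.le_succ N) hx)
    rw [h, mul_zero] at this
    have h2 : ‖x‖ = 0 := by nlinarith [norm_nonneg x]
    exact norm_eq_zero.1 h2
  obtain ⟨k, e, lev, o1, o2, o3, o4, o5, o6, o7⟩ := hob A F hmono hfin h0 N ρ hρ hfaith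
  have s : Sys F N ρ e lev := ⟨o1, o2, o3, o4, o5, o6, o7⟩
  -- choice of J
  set K : ℝ := max 1 ‖lift (gv t lev e) 1‖ with hK
  obtain ⟨J, hJ⟩ := exists_nat_gt (K / (η * η))
  have hKp : 0 < K := lt_of_lt_of_le one_pos (le_max_left _ _)
  have hJp : 0 < J := by
    have : (0 : ℝ) < J := lt_trans (by positivity) hJ
    exact_mod_cast this
  refine ⟨k, comp ρ e, psi (gv t lev e) η J, ?_, psi_cpc hcf hps s t η hηp J, ?_⟩
  · refine Pool.Agent.W659.EC.IsCP.isCPC (hph A k ρ e hρ) ?_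
    rw [comp_one ρ e s.orth]
    obtain ⟨i0, -, -⟩ := s.one
    haveI : Nonempty (Fin k) := ⟨i0⟩
    exact (CStarRing.norm_one).le
  · intro a ha hsa
    refine (est hst hph hps hcf hco hbn s hρ hmono hmul (6 * d) t (by positivity) htp.le hDO a ha
      hsa η J hηp hJp).trans ?_
    have k1 : K / (J * η) ≤ η := by
      rw [div_le_iff₀ (by positivity)]
      rw [div_lt_iff₀ (by positivity)] at hJ
      nlinarith
    have k2 : (k : ℝ) ≤ d := by
      have : k ≤ Module.finrank ℂ (F (N + 1)) :=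
        o6.trans (Submodule.finrank_mono (hmono (Nat.le_succ N)))
      rw [hd]
      exact_mod_cast this
    have k3 : d ≤ Real.exp (t / 2 * ((N + 1 : ℕ) : ℝ)) :=
      hN₀ (N + 1) ((le_max_left _ _).trans (Nat.le_succ N))
    have k4 : d * (Real.exp (-t * N) ^ 2 * (6 * d)) ≤ η := by
      have hd0 : 0 ≤ d := by positivity
      have k5 : d * d ≤ Real.exp t * Real.exp (t * N) := by
        calc d * d ≤ Real.exp (t / 2 * ((N + 1 : ℕ) : ℝ)) * Real.exp (t / 2 * ((N + 1 : ℕ) : ℝ)) := by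
              gcongr
          _ = Real.exp t * Real.exp (t * N) := by
              rw [← Real.exp_add, ← Real.exp_add]
              congr 1
              push_cast
              ring
      calc d * (Real.exp (-t * N) ^ 2 * (6 * d)) = 6 * (d * d) * Real.exp (-t * N) ^ 2 := by ring
        _ ≤ 6 * (Real.exp t * Real.exp (t * N)) * Real.exp (-t * N) ^ 2 := by gcongr
        _ = 6 * Real.exp t * Real.exp (-t * N) := by
            have : Real.exp (t * N) * Real.exp (-t * N) = 1 := by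
              rw [← Real.exp_add]; simp
            calc _ = 6 * Real.exp t * Real.exp (-t * N) * (Real.exp (t * N) * Real.exp (-t * N)) := by
                  ring
              _ = _ := by rw [this, mul_one]
        _ ≤ η := hN₁ N (le_max_right _ _)
    have k6 : (k : ℝ) * (Real.exp (-t * N) ^ 2 * (6 * d * ‖a‖)) ≤ η * ‖a‖ := by
      calc (k : ℝ) * (Real.exp (-t * N) ^ 2 * (6 * d * ‖a‖)) =
            (k : ℝ) * (Real.exp (-t * N) ^ 2 * (6 * d)) * ‖a‖ := by ring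
        _ ≤ d * (Real.exp (-t * N) ^ 2 * (6 * d)) * ‖a‖ := by gcongr
        _ ≤ η * ‖a‖ := by gcongr
    rw [het]
    have k7 : ‖a‖ * (η + K / (J * η)) ≤ ‖a‖ * (η + η) := by gcongr
    have hna := norm_nonneg a
    calc _ ≤ 3 * (2 * (1 + η - 1) * ‖a‖ + η * ‖a‖) + ‖a‖ * (η + η) := by gcongr
      _ = 11 * η * ‖a‖ := by ring
      _ ≤ ε * ‖a‖ := by
        gcongr
        rw [hη]
        linarith

end Pool.Agent.W663.SX
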