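import Mathlib
import Pool.Agent.W663.SX.One

set_option autoImplicit false
open scoped Matrix.Norms.L2Operator Matrix ComplexOrder

noncomputable section

namespace Pool.Agent.W663.SX

open Pool.Agent.W659.EC (IsCP IsCPC)

/-- exponential form of subexponential growth -/
theorem growth (x : ℕ → ℝ) (hx : ∀ n, 0 ≤ x n)
    (h : Filter.Tendsto (fun n : ℕ => x n ^ (1 / (n : ℝ))) Filter.atTop (nhds 1))
    (δ : ℝ) (hδ : 0 < δ) : ∃ N₀ : ℕ, 1 ≤ N₀ ∧ ∀ n : ℕ, N₀ ≤ n → x n ≤ Real.exp (δ * n) := by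
  have h1 : (1 : ℝ) < Real.exp δ := by simpa using hδ
  obtain ⟨N, hN⟩ := Filter.eventually_atTop.1 (h.eventually (gt_mem_nhds h1))
  refine ⟨max N 1, le_max_right _ _, fun n hn => ?_⟩
  have hn1 : 1 ≤ n := (le_max_right _ _).trans hn
  have hn0 : (n : ℝ) ≠ 0 := by positivity
  have h2 := (hN n ((le_max_left _ _).trans hn)).le
  calc x n = (x n ^ (1 / (n : ℝ))) ^ (n : ℝ) := by
        rw [← Real.rpow_mul (hx n), one_div, inv_mul_cancel₀ hn0, Real.rpow_one]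
    _ ≤ (Real.exp δ) ^ (n : ℝ) := Real.rpow_le_rpow (Real.rpow_nonneg (hx n) _) h2 (by positivity)
    _ = Real.exp (δ * n) := by rw [← Real.exp_mul]

theorem many (hst : S_ST) (hdo : S_DO) (hob : S_OB) (hph : S_PH) (hps : S_PS) (hcf : S_CF)
    (hco : S_CO) (hbn : S_BN) (A : Type) [CStarAlgebra A] [Nontrivial A]
    (F : ℕ → Submodule ℂ A) (hmono : Monotone F) (h0 : F 0 = Submodule.span ℂ {(1 : A)})
    (hmul : ∀ m n : ℕ, ∀ x ∈ F m, ∀ y ∈ F n, x * y ∈ F (m + n))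
    (hstar : ∀ n : ℕ, ∀ x ∈ F n, star x ∈ F n)
    (hdense : Dense (⋃ n : ℕ, (F n : Set A)))
    (hfin : ∀ n, FiniteDimensional ℂ (F n))
    (hg : Filter.Tendsto (fun n : ℕ => ((Module.finrank ℂ (F n) : ℕ) : ℝ) ^ (1 / (n : ℝ)))
      Filter.atTop (nhds 1)) (S : Finset A) (ε : ℝ) (hε : 0 < ε) :
    ∃ (k : ℕ) (φ : A →ₗ[ℂ] Matrix (Fin k) (Fin k) ℂ) (ψ : Matrix (Fin k) (Fin k) ℂ →ₗ[ℂ] A),
      IsCPC φ ∧ IsCPC ψ ∧ ∀ a ∈ S, ‖ψ (φ a) - a‖ < ε := by
  classical
  -- approximation of the elements of `S`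
  have happ : ∀ s : A, ∃ b : A, (∃ n, b ∈ F n) ∧ ‖s - b‖ < ε / 4 := by
    intro s
    obtain ⟨b, hb, hb2⟩ := Metric.dense_iff.1 hdense s (ε / 4) (by positivity)
    obtain ⟨n, hn⟩ := Set.mem_iUnion.1 hb2
    refine ⟨b, ⟨n, hn⟩, ?_⟩
    rw [Metric.mem_ball, dist_eq_norm, norm_sub_rev] at hb
    exact hb
  choose b hb1 hb2 using happ
  choose nn hnn using hb1
  set m : ℕ := S.sup nn + 1 with hm
  set B : ℝ := ∑ s ∈ S, ‖b s‖ with hB
  have hB0 : 0 ≤ B := Finset.sum_nonneg fun _ _ => norm_nonneg _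
  set ε' : ℝ := ε / (8 * (B + 1)) with hε'
  have hε'p : 0 < ε' := by positivity
  set F' : ℕ → Submodule ℂ A := fun n => F (m * n) with hF'
  have hm1 : 1 ≤ m := Nat.succ_le_succ (Nat.zero_le _)
  obtain ⟨k, φ, ψ, hφ, hψ, hest⟩ := main_one hst hdo hob hph hps hcf hco hbn A F'
    (fun i j hij => hmono (Nat.mul_le_mul_left m hij)) (by simpa [hF'] using h0)
    (fun i j x hx y hy => by
      have := hmul _ _ x hx y hy
      simpa [hF', mul_add] using this)
    (fun n => hfin _)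
    (by
      intro δ hδ
      obtain ⟨N₀, -, hN⟩ := growth (fun n => ((Module.finrank ℂ (F n) : ℕ) : ℝ))
        (fun n => by positivity) hg (δ / m) (by positivity)
      refine ⟨N₀, fun n hn => ?_⟩
      have h1 : N₀ ≤ m * n := hn.trans (Nat.le_mul_of_pos_left n hm1)
      refine (hN (m * n) h1).trans (le_of_eq ?_)
      congr 1
      push_cast
      field_simp) ε' hε'p
  refine ⟨k, φ, ψ, hφ, hψ, fun s hs => ?_⟩
  have hbm : b s ∈ F' 1 := by
    have h1 : nn s ≤ m := (Finset.le_sup (f := nn) hs).trans (Nat.le_succ _)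
    have := hmono h1 (hnn s)
    simpa [hF'] using this
  have hbs : star (b s) ∈ F' 1 := hstar _ _ hbm
  have hbB : ‖b s‖ ≤ B := Finset.single_le_sum (f := fun s => ‖b s‖)
    (fun _ _ => norm_nonneg _) hs
  -- real and imaginary parts
  set x : A := (2⁻¹ : ℂ) • (b s + star (b s)) with hx
  set y : A := ((-Complex.I) * 2⁻¹ : ℂ) • (b s - star (b s)) with hy
  have hxm : x ∈ F' 1 := (F' 1).smul_mem _ ((F' 1).add_mem hbm hbs)
  have hym : y ∈ F' 1 := (F' 1).smul_mem _ ((F' 1).sub_mem hbm hbs)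
  have hxs : IsSelfAdjoint x := by
    rw [IsSelfAdjoint, hx, star_smul, star_add, star_star]
    simp [add_comm]
  have hys : IsSelfAdjoint y := by
    rw [IsSelfAdjoint, hy, star_smul, star_sub, star_star]
    have : star ((-Complex.I) * 2⁻¹ : ℂ) = -((-Complex.I) * 2⁻¹) := by
      rw [Complex.star_def]
      apply Complex.ext <;> simp
    rw [this, neg_smul, ← smul_neg, neg_sub]
  have hxy : b s = x + Complex.I • y := by
    rw [hx, hy, smul_smul]
    have : Complex.I * (-Complex.I * 2⁻¹) = 2⁻¹ := by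
      rw [← mul_assoc, mul_neg, Complex.I_mul_I]; norm_num
    rw [this, smul_add, smul_sub]
    have h2 : (2⁻¹ : ℂ) • b s + (2⁻¹ : ℂ) • b s = b s := by
      rw [← add_smul]; norm_num
    calc b s = (2⁻¹ : ℂ) • b s + (2⁻¹ : ℂ) • b s := h2.symm
      _ = _ := by abel
  have hxn : ‖x‖ ≤ B := by
    rw [hx, norm_smul]
    have : ‖b s + star (b s)‖ ≤ B + B := (norm_add_le _ _).trans (by rw [norm_star]; linarith)
    have h2 : ‖(2⁻¹ : ℂ)‖ = 2⁻¹ := by norm_num
    rw [h2]; linarith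
  have hyn : ‖y‖ ≤ B := by
    rw [hy, norm_smul]
    have : ‖b s - star (b s)‖ ≤ B + B := (norm_sub_le _ _).trans (by rw [norm_star]; linarith)
    have h2 : ‖((-Complex.I) * 2⁻¹ : ℂ)‖ = 2⁻¹ := by
      rw [norm_mul, norm_neg, Complex.norm_I]; norm_num
    rw [h2]; linarith
  have e1 := hest x hxm hxs
  have e2 := hest y hym hys
  have e3 : ‖ψ (φ (b s)) - b s‖ ≤ ε / 4 := by
    have h7 : ψ (φ (b s)) = ψ (φ x) + Complex.I • ψ (φ y) := by
      have h := congrArg (fun z => ψ (φ z)) hxy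
      simpa only [map_add, map_smul] using h
    have : ψ (φ (b s)) - b s = (ψ (φ x) - x) + Complex.I • (ψ (φ y) - y) := by
      refine (congrArg₂ (fun u v : A => u - v) h7 hxy).trans ?_
      rw [smul_sub]
      generalize Complex.I • ψ (φ y) = p
      generalize Complex.I • y = q
      generalize ψ (φ x) = r
      change r + p - (x + q) = r - x + (p - q)
      abel
    rw [this]
    refine (norm_add_le _ _).trans ?_
    rw [norm_smul, Complex.norm_I, one_mul]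
    have h3 : ε' * B + ε' * B ≤ ε / 4 := by
      rw [hε']
      have : ε / (8 * (B + 1)) * B + ε / (8 * (B + 1)) * B = (ε / 4) * (B / (B + 1)) := by
        field_simp; ring
      rw [this]
      have h4 : B / (B + 1) ≤ 1 := by rw [div_le_one (by positivity)]; linarith
      nlinarith
    have h5 : ε' * ‖x‖ ≤ ε' * B := by gcongr
    have h6 : ε' * ‖y‖ ≤ ε' * B := by gcongr
    linarith
  have e4 : ‖ψ (φ (s - b s))‖ ≤ ‖s - b s‖ := (hψ.2 _).trans (hφ.2 _)
  have e5 := hb2 s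
  have e6 : ψ (φ s) - s = ψ (φ (s - b s)) + (ψ (φ (b s)) - b s) - (s - b s) := by
    rw [map_sub, map_sub]; abel
  rw [e6]
  calc _ ≤ ‖ψ (φ (s - b s))‖ + ‖ψ (φ (b s)) - b s‖ + ‖s - b s‖ :=
        (norm_sub_le _ _).trans (by gcongr; exact norm_add_le _ _)
    _ < ε := by linarith

/-- transfer to operators on Euclidean space -/
theorem transfer (A : Type) [CStarAlgebra A] (k : ℕ) (φ : A →ₗ[ℂ] Matrix (Fin k) (Fin k) ℂ)
    (ψ : Matrix (Fin k) (Fin k) ℂ →ₗ[ℂ] A) (hφ : IsCPC φ) (hψ : IsCPC ψ) (S : Finset A) (ε : ℝ)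
    (h : ∀ a ∈ S, ‖ψ (φ a) - a‖ < ε) :
    ∃ (φ' : A →ₗ[ℂ] (EuclideanSpace ℂ (Fin k) →L[ℂ] EuclideanSpace ℂ (Fin k)))
        (ψ' : (EuclideanSpace ℂ (Fin k) →L[ℂ] EuclideanSpace ℂ (Fin k)) →ₗ[ℂ] A),
        (∀ (n : ℕ) (y : Matrix (Fin n) (Fin n) A),
          ∃ z : Matrix (Fin n) (Fin n)
              (EuclideanSpace ℂ (Fin k) →L[ℂ] EuclideanSpace ℂ (Fin k)),
            (y.conjTranspose * y).map (⇑φ') = z.conjTranspose * z) ∧
        (∀ (n : ℕ) (y : Matrix (Fin n) (Fin n)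
              (EuclideanSpace ℂ (Fin k) →L[ℂ] EuclideanSpace ℂ (Fin k))),
          ∃ z : Matrix (Fin n) (Fin n) A,
            (y.conjTranspose * y).map (⇑ψ') = z.conjTranspose * z) ∧
        (∀ a : A, ‖φ' a‖ ≤ ‖a‖) ∧
        (∀ b : EuclideanSpace ℂ (Fin k) →L[ℂ] EuclideanSpace ℂ (Fin k), ‖ψ' b‖ ≤ ‖b‖) ∧
        ∀ a ∈ S, ‖ψ' (φ' a) - a‖ < ε := by
  let T := Matrix.toEuclideanCLM (n := Fin k) (𝕜 := ℂ)
  have hT : ∀ M, ‖T M‖ = ‖M‖ := fun M => rfl
  have s1 : ∀ M, T (star M) = star (T M) := fun M => T.map_star' M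
  have s2 : ∀ M, T.symm (star M) = star (T.symm M) := fun M => T.symm.map_star' M
  have m1 : ∀ M N, T (M * N) = T M * T N := fun M N => T.map_mul' M N
  have m2 : ∀ M N, T.symm (M * N) = T.symm M * T.symm N := fun M N => T.symm.map_mul' M N
  have a1 : ∀ (n : ℕ) (f : Fin n → Matrix (Fin k) (Fin k) ℂ), T (∑ i, f i) = ∑ i, T (f i) :=
    fun n f => _root_.map_sum T.toAlgEquiv.toLinearMap f Finset.univ
  have a2 : ∀ (n : ℕ) (f : Fin n → (EuclideanSpace ℂ (Fin k) →L[ℂ] EuclideanSpace ℂ (Fin k))),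
      T.symm (∑ i, f i) = ∑ i, T.symm (f i) :=
    fun n f => _root_.map_sum T.symm.toAlgEquiv.toLinearMap f Finset.univ
  refine ⟨T.toAlgEquiv.toLinearMap.comp φ, ψ.comp T.symm.toAlgEquiv.toLinearMap, ?_, ?_, ?_, ?_, ?_⟩
  · intro n y
    obtain ⟨N, hN⟩ := hφ.1 n y
    refine ⟨N.map T, ?_⟩
    have : (y.conjTranspose * y).map (⇑(T.toAlgEquiv.toLinearMap.comp φ)) =
        ((y.conjTranspose * y).map φ).map T := by
      ext1; rfl
    rw [this, hN]
    ext1 p q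
    simp only [Matrix.map_apply, Matrix.mul_apply, Matrix.conjTranspose_apply]
    rw [a1]
    exact Finset.sum_congr rfl fun i _ => by rw [m1, s1]
  · intro n y
    obtain ⟨N, hN⟩ := hψ.1 n (y.map T.symm)
    refine ⟨N, ?_⟩
    rw [← hN]
    ext1 p q
    simp only [Matrix.map_apply, Matrix.mul_apply, Matrix.conjTranspose_apply]
    change ψ (T.symm _) = ψ _
    congr 1
    rw [a2]
    exact Finset.sum_congr rfl fun i _ => by rw [m2, s2]
  · intro a
    change ‖T (φ a)‖ ≤ _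
    rw [hT]
    exact hφ.2 a
  · intro b
    change ‖ψ (T.symm b)‖ ≤ _
    refine (hψ.2 _).trans (le_of_eq ?_)
    rw [← hT, StarAlgEquiv.apply_symm_apply]
  · intro a ha
    change ‖ψ (T.symm (T (φ a))) - a‖ < ε
    rw [StarAlgEquiv.symm_apply_apply]
    exact h a ha

end Pool.Agent.W663.SX
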